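import Pool.Agent.ISB.StmtsB

/-!
# Squad ISB, row GMC: the lower central series
-/

set_option autoImplicit false

namespace Pool.Agent.ISB.H41

open scoped Classical commutatorElement

theorem tsl {G : Type} [Group G] (N H1 H2 H3 : Subgroup G) [N.Normal]
    (h1 : ⁅⁅H2, H3⁆, H1⁆ ≤ N) (h2 : ⁅⁅H3, H1⁆, H2⁆ ≤ N) : ⁅⁅H1, H2⁆, H3⁆ ≤ N := by
  have key : ∀ K : Subgroup G, K.map (QuotientGroup.mk' N) = ⊥ ↔ K ≤ N := by
    intro K
    rw [Subgroup.map_eq_bot_iff, QuotientGroup.ker_mk']
  rw [← key] at h1 h2 ⊢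
  rw [Subgroup.map_commutator, Subgroup.map_commutator] at h1 h2 ⊢
  exact Subgroup.commutator_commutator_eq_bot_of_rotate h1 h2

instance gmChar (P : Type) [Group P] (a : ℕ) : (gm P a).Characteristic := by
  unfold gm; infer_instance

theorem gm_add (P : Type) [Group P] (b : ℕ) : ∀ a, ⁅gm P a, gm P b⁆ ≤ gm P (a + b + 1) := by
  induction b with
  | zero =>
    intro a
    exact le_refl _
  | succ b ih =>
    intro a
    have e1 : gm P (b + 1) = ⁅gm P b, ⊤⁆ := rfl
    rw [e1, Subgroup.commutator_comm]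
    refine tsl _ _ _ _ ?_ ?_
    · rw [Subgroup.commutator_comm ⊤]
      have h1 := ih (a + 1)
      have e2 : a + 1 + b + 1 = a + (b + 1) + 1 := by ring
      rw [e2] at h1
      exact h1
    · exact Subgroup.commutator_mono (ih a) le_rfl

theorem gmc : GmcStmt := by
  intro P _
  refine ⟨?_, ?_, ?_, ?_, rfl⟩
  · intro a b x hx y hy
    exact gm_add P b a (Subgroup.commutator_mem_commutator hx hy)
  · intro a b hab
    exact Subgroup.lowerCentralSeries_antitone _ hab
  · intro a x hx g
    exact (inferInstance : (gm P a).Normal).conj_mem x hx g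
  · intro κ a x hx
    have h1 := (gmChar P a).fixed κ
    rw [← h1] at hx
    exact hx

end Pool.Agent.ISB.H41
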