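import Pool.Agent.ISB.StmtsA

/-!
# Squad ISB, row PGH: pigeonhole for lists
-/

set_option autoImplicit false

namespace Pool.Agent.ISB.H41

open scoped Classical

theorem sum_countP {α : Type} (r : ℕ) (f : α → ℕ) (l : List α) (h : ∀ a ∈ l, f a < r) :
    ∑ k ∈ Finset.range r, l.countP (fun a => decide (f a = k)) = l.length := by
  induction l with
  | nil => simp
  | cons a l ih =>
    have ih' := ih fun b hb => h b (List.mem_cons_of_mem _ hb)
    have ha : f a < r := h a List.mem_cons_self
    simp only [List.countP_cons, List.length_cons, decide_eq_true_eq]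
    rw [Finset.sum_add_distrib, ih']
    congr 1
    rw [Finset.sum_ite_eq]
    simp [ha]

theorem pgh : PghStmt := by
  intro α r m f l hf hl
  have h1 : ∃ k < r, m < l.countP (fun a => decide (f a = k)) := by
    by_contra hcon
    push Not at hcon
    have h2 := sum_countP r f l hf
    have h3 : ∑ k ∈ Finset.range r, l.countP (fun a => decide (f a = k)) ≤
        ∑ _k ∈ Finset.range r, m :=
      Finset.sum_le_sum fun k hk => hcon k (Finset.mem_range.mp hk)
    rw [Finset.sum_const, Finset.card_range, smul_eq_mul] at h3
    omega
  obtain ⟨k, hk, hm⟩ := h1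
  obtain ⟨q, hq⟩ : ∃ q : List α, q = l.filter (fun a => decide (f a = k)) := ⟨_, rfl⟩
  have hql : m < q.length := by
    rw [hq, ← List.countP_eq_length_filter]; exact hm
  refine ⟨k, hk, q.take (m + 1), q.drop (m + 1) ++ l.filter (fun a => !decide (f a = k)),
    ?_, ?_, ?_⟩
  · rw [← List.append_assoc, List.take_append_drop, hq]
    exact (List.filter_append_perm _ l).symm
  · rw [List.length_take]; omega
  · intro a ha
    have h2 : a ∈ q := List.mem_of_mem_take ha
    rw [hq, List.mem_filter] at h2
    simpa using h2.2

end Pool.Agent.ISB.H41
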