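import Pool.Agent.ISB.StmtsC

/-!
# Squad ISB, row STC: one layer down
-/

set_option autoImplicit false

namespace Pool.Agent.ISB.H41

open scoped Classical commutatorElement

/-- the elements which move `x` inside of its `M`-orbit -/
def Ko {G Ω : Type} [Group G] [MulAction G Ω] (M : Subgroup G) [hM : M.Normal] (x : Ω) :
    Subgroup G where
  carrier := {y | ∃ m ∈ M, y • x = m • x}
  one_mem' := ⟨1, M.one_mem, rfl⟩
  mul_mem' := by
    rintro y y' ⟨m, hm, h⟩ ⟨m', hm', h'⟩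
    refine ⟨y * m' * y⁻¹ * m, M.mul_mem (hM.conj_mem m' hm' y) hm, ?_⟩
    rw [mul_smul, h', mul_smul (y * m' * y⁻¹), ← h, mul_smul, mul_smul, inv_smul_smul]
  inv_mem' := by
    rintro y ⟨m, hm, h⟩
    refine ⟨y⁻¹ * m⁻¹ * y, ?_, ?_⟩
    · have := hM.conj_mem _ (M.inv_mem hm) y⁻¹
      rwa [inv_inv] at this
    · rw [mul_smul, h, mul_smul, inv_smul_smul]

theorem mem_Ko {G Ω : Type} [Group G] [MulAction G Ω] (M : Subgroup G) [hM : M.Normal] (x : Ω)
    (y : G) : y ∈ Ko M x ↔ ∃ m ∈ M, y • x = m • x := Iff.rfl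

theorem stc (stb : StbStmt) : StcStmt := by
  intro G Ω _ _ _ r P κ ω hr hodd hP hR t ht hct htω N hN hNP hall x
  have hPn := hR.nrm
  obtain ⟨M, hM⟩ : ∃ M : Subgroup G, M = ⁅N, P⁆ := ⟨_, rfl⟩
  have hMn : M.Normal := by rw [hM]; infer_instance
  have hMN : M ≤ N := by rw [hM]; exact Subgroup.commutator_le_left N P
  obtain ⟨k, _, g, hg, hx⟩ := hR.cov x
  obtain ⟨m, hm, htx⟩ := hall x
  have ha : ∀ w ∈ N, w ∈ Ko M (ω k) → w ∈ Ko M x := by
    rintro w hw ⟨m', hm', h⟩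
    refine ⟨g * (⁅g⁻¹, w⁆ * m') * g⁻¹, hMn.conj_mem _ (M.mul_mem ?_ hm') g, ?_⟩
    · rw [hM, Subgroup.commutator_comm]
      exact Subgroup.commutator_mem_commutator (P.inv_mem hg) hw
    · rw [hx, ← mul_smul, ← mul_smul]
      have e1 : w * g = g * ⁅g⁻¹, w⁆ * w := by
        rw [commutatorElement_def]; group
      have e2 : g * (⁅g⁻¹, w⁆ * m') * g⁻¹ * g = g * ⁅g⁻¹, w⁆ * m' := by group
      rw [e1, e2, mul_smul _ w, h, ← mul_smul]
  have hb : ∀ y ∈ N, y⁻¹ * (t * y * t⁻¹) ∈ Ko M x := by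
    intro y hy
    refine ha _ (N.mul_mem (N.inv_mem hy) (hN.conj_mem y hy t)) ?_
    rw [mem_Ko, hM]
    exact stb G Ω r P κ ω hr hodd hP hR t ht hct htω N hN hNP k y hy
  have hc : ∀ i : ℕ, ∃ q ∈ M, t ^ i • x = (q * m ^ i) • x := by
    intro i
    induction i with
    | zero => exact ⟨1, M.one_mem, by simp⟩
    | succ i ih =>
      obtain ⟨q, hq, hqx⟩ := ih
      obtain ⟨w, hw⟩ : ∃ w, w = (m ^ i)⁻¹ * (t * m ^ i * t⁻¹) := ⟨_, rfl⟩
      have hmi : m ^ i ∈ N := N.pow_mem hm i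
      have hwN : w ∈ N := by
        rw [hw]; exact N.mul_mem (N.inv_mem hmi) (hN.conj_mem _ hmi t)
      obtain ⟨m', hm', hwx⟩ : ∃ m' ∈ M, w • x = m' • x := by
        have := hb _ hmi
        rwa [← hw] at this
      refine ⟨t * q * t⁻¹ * (m ^ i * (⁅w, m⁆ * (m * m' * m⁻¹)) * (m ^ i)⁻¹), ?_, ?_⟩
      · refine M.mul_mem (hMn.conj_mem q hq t) (hMn.conj_mem _ (M.mul_mem ?_ ?_) _)
        · rw [hM]
          exact Subgroup.commutator_mem_commutator hwN (hNP hm)
        · exact hMn.conj_mem m' hm' m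
      · rw [pow_succ', mul_smul, hqx]
        have e1 : t • (q * m ^ i) • x = (t * q * t⁻¹ * (t * m ^ i * t⁻¹)) • t • x := by
          rw [← mul_smul, ← mul_smul]; congr 1; group
        have e2 : t * m ^ i * t⁻¹ = m ^ i * w := by rw [hw]; group
        rw [e1, htx, e2, ← mul_smul]
        have e3 : t * q * t⁻¹ * (m ^ i * w) * m = t * q * t⁻¹ * m ^ i * ⁅w, m⁆ * m * w := by
          rw [commutatorElement_def]; group
        rw [e3, mul_smul _ w, hwx, ← mul_smul]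
        congr 1
        rw [pow_succ']
        have e4 : m * m ^ i = m ^ i * m := (Commute.self_pow m i).eq
        rw [e4]
        group
  have hd : m ^ r ∈ Ko M x := by
    obtain ⟨q, hq, hqx⟩ := hc r
    rw [ht, one_smul, mul_smul] at hqx
    refine ⟨q⁻¹, M.inv_mem hq, ?_⟩
    rw [eq_inv_smul_iff]; exact hqx.symm
  have he : m ∈ Ko M x := by
    obtain ⟨s, hs⟩ := hP ⟨m, hNP hm⟩
    have hs' : m ^ (2 ^ s) = 1 := by
      have := congrArg Subtype.val hs
      simpa using this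
    have hcop : r.Coprime (orderOf m) := by
      refine Nat.Coprime.coprime_dvd_right (orderOf_dvd_of_pow_eq_one hs') ?_
      exact Nat.Coprime.pow_right s (Nat.Coprime.symm (Nat.coprime_two_left.mpr hodd))
    obtain ⟨u, hu⟩ := exists_pow_eq_self_of_coprime hcop
    rw [← hu]
    exact (Ko M x).pow_mem hd u
  obtain ⟨m', hm', h'⟩ := he
  refine ⟨m', by rw [← hM]; exact hm', ?_⟩
  rw [htx, h']

end Pool.Agent.ISB.H41
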