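import Pool.Agent.ISB.StmtsC
import Pool.Agent.Helper41_ISB.STC

/-!
# Squad ISB, row ROA: an element which permutes the orbits
-/

set_option autoImplicit false

namespace Pool.Agent.ISB.H41

open scoped Classical commutatorElement

theorem roa : RoaStmt := by
  intro G Ω _ _ _ _ r a P α hr hP htr hcard horb
  have := Fact.mk hr
  obtain ⟨B, hB⟩ : ∃ B : Subgroup G, B = Ko P α := ⟨_, rfl⟩
  have hPB : P ≤ B := by
    rw [hB]; intro p hp; exact ⟨p, hp, rfl⟩
  have : MulAction.IsPretransitive G Ω := ⟨htr⟩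
  have h1 : (MulAction.stabilizer G α).index = 2 ^ a * r := by
    rw [MulAction.index_stabilizer_of_transitive, hcard]
  have h2 : MulAction.stabilizer G α ≤ B := by
    rw [hB]; intro g hg
    exact ⟨1, P.one_mem, by rw [one_smul]; exact hg⟩
  have h3 : (MulAction.stabilizer G α).relIndex B = 2 ^ a := by
    have e1 : (MulAction.stabilizer G α).subgroupOf B = MulAction.stabilizer B α := by
      ext x
      rw [Subgroup.mem_subgroupOf, MulAction.mem_stabilizer_iff, MulAction.mem_stabilizer_iff]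
      rfl
    rw [Subgroup.relIndex, e1, MulAction.index_stabilizer]
    have e2 : MulAction.orbit B α = MulAction.orbit P α := by
      ext x
      constructor
      · rintro ⟨⟨b, hb⟩, rfl⟩
        rw [hB] at hb
        obtain ⟨p, hp, h⟩ := hb
        exact ⟨⟨p, hp⟩, h.symm⟩
      · rintro ⟨⟨p, hp⟩, rfl⟩
        exact ⟨⟨p, hPB hp⟩, rfl⟩
    rw [e2, ← Nat.card_coe_set_eq, horb]
  have h4 : B.index = r := by
    have := Subgroup.relIndex_mul_index h2
    rw [h3, h1] at this
    exact Nat.eq_of_mul_eq_mul_left (by positivity) this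
  obtain ⟨R⟩ : Nonempty (Sylow r G) := inferInstance
  have h5 : ¬ (R : Subgroup G) ≤ B := by
    intro h
    have h6 := Subgroup.index_dvd_of_le h
    rw [h4] at h6
    exact R.not_dvd_index h6
  obtain ⟨κ, hκR, hκB⟩ := SetLike.not_le_iff_exists.mp h5
  obtain ⟨m, hm⟩ := R.isPGroup' ⟨κ, hκR⟩
  have hm' : κ ^ (r ^ m) = 1 := by simpa using congrArg Subtype.val hm
  obtain ⟨x0, hx0⟩ : ∃ x0 : G ⧸ B, x0 = ((1 : G) : G ⧸ B) := ⟨_, rfl⟩
  have hcq : Nat.card (G ⧸ B) = r := h4
  have : Finite (G ⧸ B) := Nat.finite_of_card_ne_zero (by rw [hcq]; exact hr.ne_zero)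
  obtain ⟨d, hd⟩ : ∃ d, d = Function.minimalPeriod (κ • ·) x0 := ⟨_, rfl⟩
  have h7 : d = Nat.card (MulAction.orbit (Subgroup.zpowers κ) x0) := by
    have h70 := @MulAction.minimalPeriod_eq_card G (G ⧸ B) _ κ _ x0 (Fintype.ofFinite _)
    rw [hd, h70]
    exact (@Nat.card_eq_fintype_card _ (Fintype.ofFinite _)).symm
  have hpg : IsPGroup r (Subgroup.zpowers κ) :=
    R.isPGroup'.to_le ((Subgroup.zpowers_le (H := (R : Subgroup G))).mpr hκR)
  obtain ⟨e, he⟩ := hpg.card_orbit x0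
  have hsm : ∀ y : G, y • x0 = ((y : G) : G ⧸ B) := by
    intro y
    rw [hx0]
    show ((y * 1 : G) : G ⧸ B) = _
    rw [mul_one]
  have h8 : d ≤ r := by
    rw [h7, ← hcq]
    exact Nat.card_le_card_of_injective Subtype.val Subtype.val_injective
  have h9 : d ≠ 1 := by
    intro h
    have h10 : κ ^ 1 • x0 = x0 := by
      rw [MulAction.pow_smul_eq_iff_minimalPeriod_dvd, ← hd, h]
    rw [pow_one, hsm, hx0, QuotientGroup.eq, mul_one] at h10
    exact hκB (by simpa using B.inv_mem h10)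
  have h10 : d = r := by
    have hde : d = r ^ e := by rw [h7, he]
    have he0 : e ≠ 0 := by
      rintro rfl; exact h9 (by rw [hde, pow_zero])
    have : r ∣ d := by rw [hde]; exact dvd_pow_self r he0
    have hdpos : 0 < d := by rw [hde]; exact pow_pos hr.pos e
    exact le_antisymm h8 (Nat.le_of_dvd hdpos this)
  have h11 : MulAction.orbit (Subgroup.zpowers κ) x0 = Set.univ := by
    refine Set.eq_of_subset_of_ncard_le (Set.subset_univ _) ?_ Set.finite_univ
    rw [Set.ncard_univ, hcq, ← Nat.card_coe_set_eq, ← h7, h10]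
  have h12 : κ ^ r • x0 = x0 :=
    MulAction.pow_smul_eq_iff_minimalPeriod_dvd.mpr (by rw [← hd, h10])
  refine ⟨κ, ⟨m, hm'⟩, ?_, ?_⟩
  · have h13 : κ ^ r ∈ B := by
      rw [hsm, hx0, QuotientGroup.eq, mul_one] at h12
      simpa using B.inv_mem h12
    rw [hB] at h13
    exact h13
  · intro x
    obtain ⟨g, hg⟩ := htr α x
    have h13 : ((g : G) : G ⧸ B) ∈ MulAction.orbit (Subgroup.zpowers κ) x0 := by
      rw [h11]; trivial
    obtain ⟨⟨_, j, rfl⟩, hj⟩ := h13
    have hj' : κ ^ j • x0 = ((g : G) : G ⧸ B) := hj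
    have hdpos : (0 : ℤ) < d := by rw [h10]; exact_mod_cast hr.pos
    have h14 : κ ^ (j % (d : ℤ)) • x0 = ((g : G) : G ⧸ B) := by
      rw [hd, MulAction.zpow_smul_mod_minimalPeriod]; exact hj'
    obtain ⟨k, hk⟩ : ∃ k : ℕ, (k : ℤ) = j % d :=
      ⟨(j % d).toNat, Int.toNat_of_nonneg (Int.emod_nonneg _ hdpos.ne')⟩
    have hkr : k < r := by
      have h15 := Int.emod_lt_of_pos j hdpos
      rw [← hk, h10] at h15
      exact_mod_cast h15
    rw [← hk, zpow_natCast, hsm, QuotientGroup.eq] at h14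
    rw [hB] at h14
    obtain ⟨p, hp, h⟩ := h14
    refine ⟨k, hkr, κ ^ k * p * (κ ^ k)⁻¹, hP.conj_mem p hp _, ?_⟩
    rw [← hg, mul_smul, inv_smul_smul, mul_smul, ← h, mul_smul, smul_inv_smul]

end Pool.Agent.ISB.H41
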